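import Pool.Agent.H9.K2.Stmts
import Pool.Agent.H12.KA.WIN
import Pool.Agent.H64.KA.TUB
import Pool.Agent.H20.KA.TRC

/-!
# The class `(a, R)`: the functional of the four operations
-/

set_option autoImplicit false

namespace Pool.KA

open Finset Real
open Pool.Agent.H49.Ent Pool.Agent.H32.Dense Pool.STK

namespace AOP

variable {m J : ℕ}

/-- At the last scale the violation is a difference of two entropies. -/
lemma V_last (F : Fam m J) : F.V J = CH F.p (F.D J) F.Z - CH F.p (F.X J) F.W := by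
  unfold Fam.V
  ring

/-- The functional, written with the violation. -/
lemma Ga_eq (F : Fam m J) (a : ℝ) :
    F.Ga a = CH F.p (F.D J) F.Z - a * (CH F.p (F.D J) F.Z - F.V J) := by
  rw [V_last]
  unfold Fam.Ga
  ring

/-- The directions in a tube. -/
lemma tub_D (F : Fam m J) (q : ℕ) (hq : q ≤ J) :
    CH (F.tub q hq).p ((F.tub q hq).D (J - q)) (F.tub q hq).Z =
      CH F.p (F.D J) (fun ω => (F.L q ω, F.Z ω)) := by
  have hp0 := F.isLaw.nonneg
  have key : ∀ (ω : F.Ω) (i : Fin m), (F.tub q hq).D (J - q) ω i =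
      F.D J ω i - 2 ^ (J - q) * (F.L q ω).2 i := by
    intro ω i
    change ⌊(2 : ℝ) ^ (J - q) * Int.fract (2 ^ q * F.d ω i)⌋ =
      ⌊(2 : ℝ) ^ J * F.d ω i⌋ - 2 ^ (J - q) * ⌊(2 : ℝ) ^ q * F.d ω i⌋
    rw [TUB.floor_fract, Nat.add_sub_cancel' hq]
  refine CH_congr (p := F.p) hp0 ?_ ?_ (fun _ _ _ _ h => h) (fun _ _ _ _ h => h)
  · intro ω ω' _ _ h
    have h1 := Prod.ext_iff.mp h
    have h2 : F.L q ω = F.L q ω' := (Prod.ext_iff.mp h1.2).1
    funext i
    have h3 : (F.tub q hq).D (J - q) ω i = (F.tub q hq).D (J - q) ω' i := congrFun h1.1 i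
    have k1 := key ω i
    have k2 := key ω' i
    rw [h2] at k1
    omega
  · intro ω ω' _ _ h
    have h1 := Prod.ext_iff.mp h
    have h2 : F.L q ω = F.L q ω' := (Prod.ext_iff.mp h1.2).1
    funext i
    have h3 : F.D J ω i = F.D J ω' i := congrFun h1.1 i
    have k1 := key ω i
    have k2 := key ω' i
    rw [h2] at k1
    omega

end AOP

open AOP

theorem aop_thm : AOPStmt := by
  intro m
  obtain ⟨C1, hC1, h1⟩ := tub_thm m
  obtain ⟨C2, hC2, h2⟩ := trc_thm m
  refine ⟨C1 + C2, by linarith, ?_⟩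
  intro J F a ha
  have hp0 := F.isLaw.nonneg
  refine ⟨?_, ?_, ?_, ?_⟩
  · intro κ z
    have e1 : CH F.p (F.X J) (fun ω => (F.T ω, (z ω, F.Z ω))) =
        CH F.p (F.X J) (fun ω => (z ω, F.W ω)) := by
      refine CH_congr hp0 (fun _ _ _ _ h => (Prod.ext_iff.mp h).1)
        (fun _ _ _ _ h => (Prod.ext_iff.mp h).1) ?_ ?_
      · intro ω ω' _ _ h
        simp only [Fam.W, Prod.mk.injEq] at h ⊢
        exact ⟨h.2.1, h.1, h.2.2⟩
      · intro ω ω' _ _ h
        simp only [Fam.W, Prod.mk.injEq] at h ⊢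
        exact ⟨h.2.1, h.1, h.2.2⟩
    rw [← e1]
    rfl
  · intro g hg
    have h := (win_thm m J F g hg).2 (J - g) (by omega)
    rw [V_last] at h
    have e2 : CH (F.win g).p ((F.win g).D (J - g)) (F.win g).Z =
        CH F.p (F.D (J - g)) (F.c g) := rfl
    have e3 : J - g + g = J := Nat.sub_add_cancel hg
    have e4 : ((J - g : ℕ) : ℝ) = (J : ℝ) - g := by rw [Nat.cast_sub hg]
    rw [e2, e3, e4] at h
    have e5 : (m : ℝ) * (((J : ℝ) - ((J : ℝ) - g + g)) * Real.log 2) = 0 := by ring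
    rw [e5] at h
    have e6 : CH (F.win g).p ((F.win g).X (J - g)) (F.win g).W =
        CH F.p (F.X J) (fun ω => (F.T ω, F.c g ω)) := by linarith
    unfold Fam.Ga
    rw [e2, e6]
  · intro q hq e he
    have h := (h1 J F q hq e he).2 (J - q) (by omega)
    rw [V_last, tub_D F q hq] at h
    have e3 : J - q + q = J := Nat.sub_add_cancel hq
    have e4 : ((J - q : ℕ) : ℝ) = (J : ℝ) - q := by rw [Nat.cast_sub hq]
    rw [e3, e4] at h
    have e5 : (m : ℝ) * (((J : ℝ) - ((J : ℝ) - q + q)) * Real.log 2) = 0 := by ring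
    rw [e5] at h
    have h5 := abs_le.mp h
    have hd : |(CH (F.tub q hq).p ((F.tub q hq).X (J - q)) (F.tub q hq).W -
        CH F.p (F.X J) (fun ω => (F.L q ω, F.W ω)))| ≤ e + (C1 + C2) := by
      rw [abs_le]
      constructor <;> linarith [h5.1, h5.2]
    unfold Fam.Ga
    rw [tub_D F q hq]
    have e7 : CH F.p (F.D J) (fun ω => (F.L q ω, F.Z ω)) -
        a * CH (F.tub q hq).p ((F.tub q hq).X (J - q)) (F.tub q hq).W -
        (CH F.p (F.D J) (fun ω => (F.L q ω, F.Z ω)) -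
          a * CH F.p (F.X J) (fun ω => (F.L q ω, F.W ω))) =
        -(a * (CH (F.tub q hq).p ((F.tub q hq).X (J - q)) (F.tub q hq).W -
          CH F.p (F.X J) (fun ω => (F.L q ω, F.W ω)))) := by ring
    rw [e7, abs_neg, abs_mul, abs_of_nonneg ha]
    exact mul_le_mul_of_nonneg_left hd ha
  · intro x hx e he
    have h := ((h2 J F x hx e he).2 x le_rfl).1
    rw [V_last] at h
    have e2 : CH (F.trc x hx).p ((F.trc x hx).D x) (F.trc x hx).Z = CH F.p (F.D x) F.Z := rfl
    rw [e2] at h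
    have e5 : (m : ℝ) * (((x : ℝ) - x) * Real.log 2) = 0 := by ring
    rw [e5] at h
    have h5 := abs_le.mp h
    have hd : |(CH (F.trc x hx).p ((F.trc x hx).X x) (F.trc x hx).W -
        CH F.p (F.X x) F.W)| ≤ e + (C1 + C2) := by
      rw [abs_le]
      constructor <;> linarith [h5.1, h5.2]
    unfold Fam.Ga
    rw [e2]
    have e7 : CH F.p (F.D x) F.Z - a * CH (F.trc x hx).p ((F.trc x hx).X x) (F.trc x hx).W -
        (CH F.p (F.D x) F.Z - a * CH F.p (F.X x) F.W) =
        -(a * (CH (F.trc x hx).p ((F.trc x hx).X x) (F.trc x hx).W -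
          CH F.p (F.X x) F.W)) := by ring
    rw [e7, abs_neg, abs_mul, abs_of_nonneg ha]
    exact mul_le_mul_of_nonneg_left hd ha

end Pool.KA
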