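import Pool.Agent.H9.K2.Stmts2

/-!
# Two samples with a common label
-/

set_option autoImplicit false

namespace Pool.KA

open Finset Real
open Pool.Agent.H49.Ent Pool.Agent.H32.Dense Pool.STK

namespace CPY

/-- The law of two samples is a coupling over the label. -/
lemma cpy_eq_glue {Ω S : Type} [Fintype Ω] (p : Ω → ℝ) (c : Ω → S) : cpy p c = glue p p c c := rfl

end CPY

open CPY

theorem cpy_thm : CPYStmt := by
  intro Ω S _ p hp c
  have h0 := hp.nonneg
  have hZ : ∀ z, law p c z = law p c z := fun _ => rfl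
  rw [cpy_eq_glue]
  refine ⟨⟨fun w => glue_nonneg h0 h0 w, ?_⟩, marg_fst h0 hZ, marg_snd h0 hZ, ?_, ?_, ?_⟩
  · rw [sum_glue h0 hZ]
    exact hp.sum_one
  · intro w
    unfold glue
    by_cases h : c w.1 = c w.2
    · rw [if_pos h, if_pos (show c w.swap.1 = c w.swap.2 from h.symm)]
      change p w.2 * p w.1 / law p c (c w.2) = p w.1 * p w.2 / law p c (c w.1)
      rw [h, mul_comm]
    · rw [if_neg h, if_neg (show ¬ c w.swap.1 = c w.swap.2 from fun h' => h h'.symm)]
  · intro w hw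
    exact (glue_pos_iff h0 h0 w).mp hw
  · intro U V f g
    have h1 := CH_glue_fst (p₁ := p) (p₂ := p) (Z₁ := c) (Z₂ := c) h0 h0 hZ f (Y := c) g
      (fun _ _ _ _ h => h)
    rw [← h1]
    refine CH_congr (fun w => glue_nonneg h0 h0 w) (fun _ _ _ _ h => (Prod.ext_iff.mp h).1)
      (fun _ _ _ _ h => (Prod.ext_iff.mp h).1) ?_ ?_
    · intro w w' _ _ h
      exact Prod.ext (Prod.ext_iff.mp h).2 (Prod.ext_iff.mp h).1
    · intro w w' _ _ h
      exact Prod.ext (Prod.ext_iff.mp h).2 (Prod.ext_iff.mp h).1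

end Pool.KA
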