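import Pool.Agent.H97.KAL.HBL

/-!
# The two sided ledger, entropy form

`Q` is a place (for instance a context and a base time), `N 0, N 1, ..` and `W 0, W 1, ..` are two
refining chains of labels (refining given `Q`). A row `P` is certified at a value of `Q` if for some
length `1 ≤ l ≤ P` the last `l` rows of `N` have conditional entropy at least `r l` given
`N (P - l)` and `W P`, all under the law conditioned on this value of `Q`. Nothing is assumed about
the dependence of the certificates on the value of `Q`, the intervals may overlap, and no adapted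
choice is made: at every fixed value of `Q` the rows are tiled greedily from the right. The rows of
`W` are counted in the tight order: row `k + 1` of `W` given `N k` and `W k`.
-/

set_option autoImplicit false

namespace Pool.KX

open Finset Real
open Pool.Agent.H49.Ent Pool.Agent.H32.Dense Pool.STK Pool.KAF Pool.KAL

/-- Row `P` is certified at the value `s` of `Q`. -/
def Cert {Ω σ τ α : Type} [Fintype Ω] (p : Ω → ℝ) (Q : Ω → τ) (N : ℕ → Ω → σ) (W : ℕ → Ω → α)
    (r : ℝ) (s : τ) (P : ℕ) : Prop :=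
  ∃ l, 1 ≤ l ∧ l ≤ P ∧ r * (l : ℝ) ≤ CH (cond p Q s) (N P) (fun v => (N (P - l) v, W P v))

/-- **The two sided ledger at fixed values of `Q`.** -/
def TIQStmt : Prop :=
  ∀ (Ω σ τ α : Type) [Fintype Ω] (p : Ω → ℝ) (Q : Ω → τ) (N : ℕ → Ω → σ) (W : ℕ → Ω → α)
    (n : ℕ) (r : ℝ), IsLaw p → 0 ≤ r →
    (∀ i, Det p (fun v => (Q v, N (i + 1) v)) (N i)) →
    (∀ i, Det p (fun v => (Q v, W (i + 1) v)) (W i)) →
    r * ∑ k ∈ range n, Pr p {ω | Cert p Q N W r (Q ω) (k + 1)} +
      ∑ k ∈ range n, CH p (W (k + 1)) (fun v => (Q v, N k v, W k v)) ≤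
      CH p (fun v => (N n v, W n v)) (fun v => (Q v, N 0 v, W 0 v))

/-- **One chain only** (`W` trivial), with the number of rows in the form `(1 - e) n`. -/
def TIQ1Stmt : Prop :=
  ∀ (Ω σ τ : Type) [Fintype Ω] (p : Ω → ℝ) (Q : Ω → τ) (N : ℕ → Ω → σ) (n : ℕ) (r e : ℝ),
    IsLaw p → 0 ≤ r → (∀ i, Det p (fun v => (Q v, N (i + 1) v)) (N i)) →
    (1 - e) * n ≤ ∑ k ∈ range n, Pr p {ω | ∃ l, 1 ≤ l ∧ l ≤ k + 1 ∧
      r * (l : ℝ) ≤ CH (cond p Q (Q ω)) (N (k + 1)) (N (k + 1 - l))} →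
    r * ((1 - e) * n) ≤ CH p (N n) (fun v => (Q v, N 0 v))

namespace TIQ

variable {Ω σ τ α : Type} [Fintype Ω]

lemma det_le {q : Ω → ℝ} {V : ℕ → Ω → σ} (h : ∀ i, Det q (V (i + 1)) (V i)) {i j : ℕ}
    (hij : i ≤ j) : Det q (V j) (V i) := by
  obtain ⟨k, rfl⟩ := Nat.exists_eq_add_of_le hij
  exact HBL.det_add h i k

/-- The rows of `W` given a coarse `N` are at least the rows of `W` in the tight order. -/
lemma wrows {q : Ω → ℝ} (hq : ∀ ω, 0 ≤ q ω) {N : ℕ → Ω → σ} {W : ℕ → Ω → α}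
    (hN : ∀ i, Det q (N (i + 1)) (N i)) (hW : ∀ i, Det q (W (i + 1)) (W i)) (a l : ℕ) :
    ∑ k ∈ range l, CH q (W (a + k + 1)) (fun v => (N (a + k) v, W (a + k) v)) ≤
      CH q (W (a + l)) (fun v => (N a v, W a v)) := by
  induction l with
  | zero =>
    rw [range_zero, sum_empty]
    exact CH_nonneg hq _ _
  | succ l ih =>
    rw [sum_range_succ]
    have h1 := CH_chain hq (W (a + l + 1)) (W (a + l)) (fun v => (N a v, W a v))
    have h2 : CH q (fun ω => (W (a + l + 1) ω, W (a + l) ω)) (fun v => (N a v, W a v)) ≤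
        CH q (W (a + (l + 1))) (fun v => (N a v, W a v)) := by
      refine CH_mono_left hq ?_
      intro ω ω' h h' hh
      have e1 : W (a + l + 1) ω = W (a + l + 1) ω' := (Prod.ext_iff.mp hh).1
      exact Prod.ext e1 (hW (a + l) ω ω' h h' e1)
    have h3 : CH q (W (a + l + 1)) (fun v => (N (a + l) v, W (a + l) v)) ≤
        CH q (W (a + l + 1)) (fun ω => (W (a + l) ω, N a ω, W a ω)) := by
      refine CH_mono_cond hq ?_
      intro ω ω' h h' hh
      have e1 := Prod.ext_iff.mp hh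
      exact Prod.ext e1.2 (Prod.ext (det_le hN (Nat.le_add_right a l) ω ω' h h' e1.1)
        (det_le hW (Nat.le_add_right a l) ω ω' h h' e1.2))
    linarith

/-- The chain rule for one tile. -/
lemma tile {q : Ω → ℝ} (hq : ∀ ω, 0 ≤ q ω) {N : ℕ → Ω → σ} {W : ℕ → Ω → α}
    (hN : ∀ i, Det q (N (i + 1)) (N i)) (hW : ∀ i, Det q (W (i + 1)) (W i)) (a l : ℕ) :
    CH q (fun v => (N a v, W a v)) (fun v => (N 0 v, W 0 v)) +
      (CH q (W (a + l)) (fun v => (N a v, W a v)) +
        CH q (N (a + l)) (fun v => (N a v, W (a + l) v))) ≤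
      CH q (fun v => (N (a + l) v, W (a + l) v)) (fun v => (N 0 v, W 0 v)) := by
  have h1 := CH_chain hq (fun v => (N (a + l) v, W (a + l) v)) (fun v => (N a v, W a v))
    (fun v => (N 0 v, W 0 v))
  have h2 : CH q (fun ω => ((N (a + l) ω, W (a + l) ω), (N a ω, W a ω)))
      (fun v => (N 0 v, W 0 v)) ≤
      CH q (fun v => (N (a + l) v, W (a + l) v)) (fun v => (N 0 v, W 0 v)) := by
    refine CH_mono_left hq ?_
    intro ω ω' h h' hh
    have e1 := (Prod.ext_iff.mp hh).1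
    have e2 := Prod.ext_iff.mp e1
    exact Prod.ext e1 (Prod.ext (det_le hN (Nat.le_add_right a l) ω ω' h h' e2.1)
      (det_le hW (Nat.le_add_right a l) ω ω' h h' e2.2))
  have h3 : CH q (fun v => (N (a + l) v, W (a + l) v)) (fun v => (N a v, W a v)) ≤
      CH q (fun v => (N (a + l) v, W (a + l) v))
        (fun ω => ((N a ω, W a ω), (N 0 ω, W 0 ω))) := by
    refine CH_mono_cond hq ?_
    intro ω ω' h h' hh
    have e2 := Prod.ext_iff.mp hh
    exact Prod.ext hh (Prod.ext (det_le hN (Nat.zero_le a) ω ω' h h' e2.1)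
      (det_le hW (Nat.zero_le a) ω ω' h h' e2.2))
  have h4 := CH_chain hq (N (a + l)) (W (a + l)) (fun v => (N a v, W a v))
  have h5 : CH q (N (a + l)) (fun v => (N a v, W (a + l) v)) ≤
      CH q (N (a + l)) (fun ω => (W (a + l) ω, N a ω, W a ω)) := by
    refine CH_mono_cond hq ?_
    intro ω ω' h h' hh
    have e2 := Prod.ext_iff.mp hh
    exact Prod.ext e2.2 (Prod.ext e2.1
      (det_le hW (Nat.le_add_right a l) ω ω' h h' e2.2))
  linarith

open Classical in
/-- The ledger under one law. -/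
lemma ledger {q : Ω → ℝ} (hq : ∀ ω, 0 ≤ q ω) {N : ℕ → Ω → σ} {W : ℕ → Ω → α} {r : ℝ} (hr : 0 ≤ r)
    (hN : ∀ i, Det q (N (i + 1)) (N i)) (hW : ∀ i, Det q (W (i + 1)) (W i)) (C : ℕ → Prop)
    (hC : ∀ P, C P → ∃ l, 1 ≤ l ∧ l ≤ P ∧
      r * (l : ℝ) ≤ CH q (N P) (fun v => (N (P - l) v, W P v))) (n : ℕ) :
    r * ∑ k ∈ range n, (if C (k + 1) then (1 : ℝ) else 0) +
      ∑ k ∈ range n, CH q (W (k + 1)) (fun v => (N k v, W k v)) ≤
      CH q (fun v => (N n v, W n v)) (fun v => (N 0 v, W 0 v)) := by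
  induction n using Nat.strong_induction_on with
  | _ n ih =>
    rcases Nat.eq_zero_or_pos n with h0 | h0
    · subst h0
      rw [range_zero, sum_empty, sum_empty, mul_zero, zero_add]
      exact CH_nonneg hq _ _
    · by_cases hc : C n
      · obtain ⟨l, h1, h2, h3⟩ := hC n hc
        obtain ⟨a, ha⟩ : ∃ a, n = a + l := ⟨n - l, by omega⟩
        have h4 := ih a (by omega)
        have e1 : ∑ k ∈ range n, (if C (k + 1) then (1 : ℝ) else 0) ≤
            ∑ k ∈ range a, (if C (k + 1) then (1 : ℝ) else 0) + l := by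
          rw [ha, sum_range_add]
          have : ∑ k ∈ range l, (if C (a + k + 1) then (1 : ℝ) else 0) ≤
              ∑ _k ∈ range l, (1 : ℝ) := by
            refine sum_le_sum fun k _ => ?_
            split_ifs
            · exact le_rfl
            · exact zero_le_one
          rw [sum_const, card_range, nsmul_eq_mul, mul_one] at this
          linarith
        have e2 : ∑ k ∈ range n, CH q (W (k + 1)) (fun v => (N k v, W k v)) =
            ∑ k ∈ range a, CH q (W (k + 1)) (fun v => (N k v, W k v)) +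
            ∑ k ∈ range l, CH q (W (a + k + 1)) (fun v => (N (a + k) v, W (a + k) v)) := by
          rw [ha, sum_range_add]
        have e3 := wrows hq hN hW a l
        have e4 := tile hq hN hW a l
        have e5 : n - l = a := by omega
        rw [e5] at h3
        rw [← ha] at e3 e4
        have e6 := mul_le_mul_of_nonneg_left e1 hr
        rw [mul_add] at e6
        rw [e2]
        linarith
      · obtain ⟨a, ha⟩ : ∃ a, n = a + 1 := ⟨n - 1, by omega⟩
        have h4 := ih a (by omega)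
        have e4 := tile hq hN hW a 1
        have e5 := CH_nonneg hq (N (a + 1)) (fun v => (N a v, W (a + 1) v))
        subst ha
        rw [sum_range_succ, sum_range_succ, if_neg hc, add_zero]
        linarith

/-- The mean of the conditional entropies under the conditional laws. -/
lemma Ex_CH {β γ : Type} {p : Ω → ℝ} (hp : ∀ ω, 0 ≤ p ω) (Q : Ω → τ) (A : Ω → β) (B : Ω → γ) :
    Ex p (fun ω => CH (cond p Q (Q ω)) A B) = CH p A (fun v => (Q v, B v)) := by
  have h1 : Ex p (fun ω => CH (cond p Q (Q ω)) A B) =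
      Ex p (fun ω => H (cond p Q (Q ω)) (fun v => (A v, B v)) - H (cond p Q (Q ω)) B) := rfl
  rw [h1, Ex_sub, CDF.Ex_H hp, CDF.Ex_H hp]
  unfold CH
  have h2 : H p (fun ω => ((A ω, B ω), Q ω)) = H p (fun ω => (A ω, Q ω, B ω)) := by
    refine H_congr hp ?_ ?_ <;>
    · intro ω ω' _ _ h
      simp only [Prod.mk.injEq] at h ⊢
      tauto
  have h3 : H p (fun ω => (B ω, Q ω)) = H p (fun ω => (Q ω, B ω)) := by
    refine H_congr hp ?_ ?_ <;>
    · intro ω ω' _ _ h
      simp only [Prod.mk.injEq] at h ⊢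
      tauto
  rw [h2, h3]
  ring

lemma Ex_sum {ι : Type} (p : Ω → ℝ) (s : Finset ι) (f : ι → Ω → ℝ) :
    Ex p (fun ω => ∑ i ∈ s, f i ω) = ∑ i ∈ s, Ex p (f i) := by
  classical
  unfold Ex
  rw [Finset.sum_comm]
  refine Finset.sum_congr rfl fun ω _ => ?_
  rw [Finset.mul_sum]

lemma Det_cond {β γ : Type} {p : Ω → ℝ} (hp : ∀ ω, 0 ≤ p ω) {Q : Ω → τ} {A : Ω → β} {B : Ω → γ}
    (h : Det p (fun v => (Q v, A v)) B) (s : τ) : Det (cond p Q s) A B := by
  intro ω ω' h1 h2 h3
  obtain ⟨a1, a2⟩ := (cond_pos_iff hp Q s ω).1 h1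
  obtain ⟨b1, b2⟩ := (cond_pos_iff hp Q s ω').1 h2
  exact h ω ω' a1 b1 (Prod.ext (a2.trans b2.symm) h3)

end TIQ

theorem tiq_thm : TIQStmt := by
  classical
  intro Ω σ τ α _ p Q N W n r hp hr hN hW
  have h0 := hp.nonneg
  have key : ∀ ω, 0 < p ω →
      r * ∑ k ∈ range n, (if Cert p Q N W r (Q ω) (k + 1) then (1 : ℝ) else 0) +
        ∑ k ∈ range n, CH (cond p Q (Q ω)) (W (k + 1)) (fun v => (N k v, W k v)) ≤
        CH (cond p Q (Q ω)) (fun v => (N n v, W n v)) (fun v => (N 0 v, W 0 v)) := by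
    intro ω _
    have hq := cond_nonneg h0 Q (Q ω)
    exact TIQ.ledger hq hr (fun i => TIQ.Det_cond h0 (hN i) _) (fun i => TIQ.Det_cond h0 (hW i) _)
      (fun P => Cert p Q N W r (Q ω) P) (fun P h => h) n
  have h1 := Ex_mono h0 key
  have h2 := TIQ.Ex_CH h0 Q (fun v => (N n v, W n v)) (fun v => (N 0 v, W 0 v))
  rw [h2] at h1
  have h3 : Ex p (fun ω =>
      r * ∑ k ∈ range n, (if Cert p Q N W r (Q ω) (k + 1) then (1 : ℝ) else 0) +
        ∑ k ∈ range n, CH (cond p Q (Q ω)) (W (k + 1)) (fun v => (N k v, W k v))) =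
      r * ∑ k ∈ range n, Pr p {ω | Cert p Q N W r (Q ω) (k + 1)} +
      ∑ k ∈ range n, CH p (W (k + 1)) (fun v => (Q v, N k v, W k v)) := by
    rw [Ex_add, Ex_smul, TIQ.Ex_sum, TIQ.Ex_sum]
    congr 1
    · congr 1
      refine Finset.sum_congr rfl fun k _ => ?_
      rw [CDF.Pr_eq]
      unfold Ex
      refine Finset.sum_congr rfl fun ω _ => ?_
      dsimp only
      by_cases hc : Cert p Q N W r (Q ω) (k + 1)
      · rw [if_pos hc, if_pos (show ω ∈ {ω | Cert p Q N W r (Q ω) (k + 1)} from hc), mul_one]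
      · rw [if_neg hc, if_neg (show ω ∉ {ω | Cert p Q N W r (Q ω) (k + 1)} from hc), mul_zero]
    · refine Finset.sum_congr rfl fun k _ => ?_
      exact TIQ.Ex_CH h0 Q (W (k + 1)) (fun v => (N k v, W k v))
  rw [h3] at h1
  exact h1

theorem tiq1_thm : TIQ1Stmt := by
  classical
  intro Ω σ τ _ p Q N n r e hp hr hN he
  have h0 := hp.nonneg
  have h1 := tiq_thm Ω σ τ Unit p Q N (fun _ _ => ()) n r hp hr hN (fun _ _ _ _ _ _ => rfl)
  have h2 : 0 ≤ ∑ k ∈ range n, CH p (fun _ => ()) (fun v => (Q v, N k v, ())) :=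
    Finset.sum_nonneg fun k _ => CH_nonneg h0 _ _
  have h3 : CH p (fun v => (N n v, ())) (fun v => (Q v, N 0 v, ())) =
      CH p (N n) (fun v => (Q v, N 0 v)) := by
    refine CH_congr h0 ?_ ?_ ?_ ?_
    · intro ω ω' _ _ h
      exact (Prod.ext_iff.mp (Prod.ext_iff.mp h).1).1
    · intro ω ω' _ _ h
      exact Prod.ext (Prod.ext_iff.mp h).1 rfl
    · intro ω ω' _ _ h
      have e1 := Prod.ext_iff.mp h
      exact Prod.ext e1.1 (Prod.ext_iff.mp e1.2).1
    · intro ω ω' _ _ h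
      have e1 := Prod.ext_iff.mp h
      exact Prod.ext e1.1 (Prod.ext e1.2 rfl)
  rw [h3] at h1
  have h4 : ∑ k ∈ range n, Pr p {ω | ∃ l, 1 ≤ l ∧ l ≤ k + 1 ∧
      r * (l : ℝ) ≤ CH (cond p Q (Q ω)) (N (k + 1)) (N (k + 1 - l))} =
      ∑ k ∈ range n, Pr p {ω | Cert p Q N (fun _ _ => ()) r (Q ω) (k + 1)} := by
    refine Finset.sum_congr rfl fun k _ => ?_
    congr 1
    ext ω
    have hq := cond_nonneg h0 Q (Q ω)
    have h5 : ∀ l, CH (cond p Q (Q ω)) (N (k + 1)) (fun v => (N (k + 1 - l) v, ())) =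
        CH (cond p Q (Q ω)) (N (k + 1)) (N (k + 1 - l)) := by
      intro l
      refine CH_congr hq ?_ ?_ ?_ ?_
      · intro ω ω' _ _ h
        exact (Prod.ext_iff.mp h).1
      · intro ω ω' _ _ h
        exact (Prod.ext_iff.mp h).1
      · intro ω ω' _ _ h
        exact (Prod.ext_iff.mp h).1
      · intro ω ω' _ _ h
        exact Prod.ext h rfl
    constructor
    · rintro ⟨l, a, b, c⟩
      exact ⟨l, a, b, c.trans_eq (h5 l).symm⟩
    · rintro ⟨l, a, b, c⟩
      exact ⟨l, a, b, c.trans_eq (h5 l)⟩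
  rw [h4] at he
  have h5 := mul_le_mul_of_nonneg_left he hr
  have h6 := h2
  change 0 ≤ ∑ k ∈ range n, CH p (fun _ => ()) (fun v => (Q v, N k v, ())) at h6
  have h7 : r * ∑ k ∈ range n, Pr p {ω | Cert p Q N (fun _ _ => ()) r (Q ω) (k + 1)} +
      ∑ k ∈ range n, CH p (fun _ => ()) (fun v => (Q v, N k v, ())) ≤
      CH p (N n) (fun v => (Q v, N 0 v)) := h1
  linarith

end Pool.KX
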